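import Pool.Agent.W2helper37.SG.Stm

/-!
# Project SG, piece TEN: the action on a tensor product
-/

set_option autoImplicit false
set_option linter.unusedSectionVars false
set_option linter.unusedSimpArgs false
set_option backward.isDefEq.respectTransparency false
set_option backward.defeqAttrib.useBackward true

open CategoryTheory Limits MonoidalCategory
open Pool.Agent.Y112.SR Pool.Agent.Y112.KD Pool.Agent.Y112.SC Pool.Agent.W2helper37.SG

namespace Pool.Agent.W2helper59.SG

universe v u w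

section

variable {C : Type u} [Category.{v} C] [Preadditive C] [MonoidalCategory C] [SymmetricCategory C]
  {K : Type w} [Field K] (R : SuperRealisation C K)

lemma bx_sum_left {Q X : C} {κ : Type} (s : Finset κ) (f : κ → (R.H.obj Q ⟶ R.H.obj Q))
    (b : R.H.obj X ⟶ R.H.obj X) : bx R (∑ i ∈ s, f i) b = ∑ i ∈ s, bx R (f i) b :=
  map_sum (AddMonoidHom.mk' (fun a => bx R a b) fun a a' => bx_add_left R a a' b) f s

lemma bx_sum_right {Q X : C} {κ : Type} (s : Finset κ) (a : R.H.obj Q ⟶ R.H.obj Q)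
    (f : κ → (R.H.obj X ⟶ R.H.obj X)) : bx R a (∑ i ∈ s, f i) = ∑ i ∈ s, bx R a (f i) :=
  map_sum (AddMonoidHom.mk' (fun b => bx R a b) fun b b' => bx_add_right R a b b') f s

lemma map_whiskerLeft_eq {Q X : C} (f : X ⟶ X) : R.H.map (Q ◁ f) = bx R (𝟙 _) (R.H.map f) := by
  rw [← CategoryTheory.Functor.map_id, bx_map, id_tensorHom]

/-- conjugation by the associator -/
lemma conj_assoc {Q X Y : C} (a : R.H.obj Q ⟶ R.H.obj Q) (b : R.H.obj X ⟶ R.H.obj X)
    (c : R.H.obj Y ⟶ R.H.obj Y) :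
    R.H.map (α_ Q X Y).inv ≫ bx R (bx R a b) c ≫ R.H.map (α_ Q X Y).hom =
      bx R a (bx R b c) := by
  rw [bx_assoc, ← Functor.map_comp_assoc, Iso.inv_hom_id, CategoryTheory.Functor.map_id,
    Category.id_comp]

lemma conj_assoc' {Q X Y : C} (a : R.H.obj Q ⟶ R.H.obj Q) (b : R.H.obj X ⟶ R.H.obj X)
    (c : R.H.obj Y ⟶ R.H.obj Y) :
    R.H.map (α_ Q X Y).hom ≫ bx R a (bx R b c) ≫ R.H.map (α_ Q X Y).inv =
      bx R (bx R a b) c := by
  rw [bx_assoc_inv, ← Functor.map_comp_assoc, Iso.hom_inv_id, CategoryTheory.Functor.map_id,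
    Category.id_comp]

end

section

variable {C : Type u} [Category.{v} C] [Preadditive C] [MonoidalCategory C] [SymmetricCategory C]
  [RightRigidCategory C] {K : Type w} [Field K] (R : SuperRealisation C K)
  {ι : Type} [Fintype ι] [DecidableEq ι] {M : C} {o : ι → Bool}
  {e : ι → ι → (R.H.obj M ⟶ R.H.obj M)}

lemma e_par (hU : Units R M o e) (i k : ι) : e i k ≫ R.par M = sg K (o k) • e i k := by
  rw [hU.par, Preadditive.comp_sum, Finset.sum_eq_single k]
  · rw [Linear.comp_smul, hU.mul, if_pos rfl]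
  · intro j _ hj
    rw [Linear.comp_smul, hU.mul, if_neg (Ne.symm hj), smul_zero]
  · intro h
    exact absurd (Finset.mem_univ _) h

lemma par_e (hU : Units R M o e) (i k : ι) : R.par M ≫ e i k = sg K (o i) • e i k := by
  rw [hU.par, Preadditive.sum_comp, Finset.sum_eq_single i]
  · rw [Linear.smul_comp, hU.mul, if_pos rfl]
  · intro j _ hj
    rw [Linear.smul_comp, hU.mul, if_neg hj, smul_zero]
  · intro h
    exact absurd (Finset.mem_univ _) h

lemma e_even (hU : Units R M o e) {i k : ι} (h : o k = o i) :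
    e i k ≫ R.par M = R.par M ≫ e i k := by
  rw [e_par R hU, par_e R hU, h]

lemma e_odd (hU : Units R M o e) {i k : ι} (h : o k ≠ o i) :
    e i k ≫ R.par M = -(R.par M ≫ e i k) := by
  rw [e_par R hU, par_e R hU, ← neg_smul]
  congr 1
  cases h1 : o k <;> cases h2 : o i <;> simp_all [sg]

end

/-- TEN (the universes of the hypothesis are those of the category). -/
theorem ten (hB : P_BRX.{v, u, w}) (C : Type u) [Category.{v} C] [Preadditive C] [Linear ℚ C]
    [MonoidalCategory C] [MonoidalPreadditive C] [MonoidalLinear ℚ C] [SymmetricCategory C]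
    [RightRigidCategory C] (K : Type w) [Field K]
    (R : SuperRealisation C K) (M X Y : C) (ι : Type) [Fintype ι] [DecidableEq ι] (o : ι → Bool)
    (e : ι → ι → (R.H.obj M ⟶ R.H.obj M)) (hU : Units R M o e)
    (a : M ⊗ X ⟶ M ⊗ X) (b : M ⊗ Y ⟶ M ⊗ Y) (A : ι → ι → Module.End K (R.H.obj X))
    (B : ι → ι → Module.End K (R.H.obj Y)) (ha : Re R e a A) (hb : Re R e b B) :
    Re R e (omT a b) (tenA R o A B) := by
  unfold Re at ha hb ⊢
  have t1 : R.H.map ((α_ M X Y).inv ≫ a ▷ Y ≫ (α_ M X Y).hom) =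
      ∑ i, ∑ k, bx R (e i k) (bx R (ModuleCat.ofHom (A k i)) (𝟙 _)) := by
    rw [Functor.map_comp, Functor.map_comp, map_whiskerRight_eq, ha]
    simp only [bx_sum_left, Preadditive.sum_comp, Preadditive.comp_sum, conj_assoc]
  have t2 : R.H.map ((α_ M X Y).inv ≫ (β_ M X).hom ▷ Y ≫ (α_ X M Y).hom ≫ X ◁ b ≫
      (α_ X M Y).inv ≫ (β_ X M).hom ▷ Y ≫ (α_ M X Y).hom) =
      ∑ i, ∑ k, bx R (e i k) (bx R (if o k = o i then 𝟙 _ else R.par X)
        (ModuleCat.ofHom (B k i))) := by
    have s1 : R.H.map ((α_ X M Y).hom ≫ X ◁ b ≫ (α_ X M Y).inv) =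
        ∑ i, ∑ k, bx R (bx R (𝟙 _) (e i k)) (ModuleCat.ofHom (B k i)) := by
      rw [Functor.map_comp, Functor.map_comp, map_whiskerLeft_eq, hb]
      simp only [bx_sum_right, Preadditive.sum_comp, Preadditive.comp_sum, conj_assoc']
    have s2 : R.H.map ((β_ M X).hom ▷ Y ≫ ((α_ X M Y).hom ≫ X ◁ b ≫ (α_ X M Y).inv) ≫
        (β_ X M).hom ▷ Y) = ∑ i, ∑ k, bx R (bx R (e i k) (if o k = o i then 𝟙 _ else R.par X))
          (ModuleCat.ofHom (B k i)) := by
      rw [Functor.map_comp, Functor.map_comp, s1]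
      simp only [Preadditive.sum_comp, Preadditive.comp_sum]
      refine Finset.sum_congr rfl fun i _ => Finset.sum_congr rfl fun k _ => ?_
      have q1 : ∀ (z : R.H.obj (X ⊗ M) ⟶ R.H.obj (X ⊗ M)),
          R.H.map ((β_ M X).hom ▷ Y) ≫ bx R z (ModuleCat.ofHom (B k i)) ≫
            R.H.map ((β_ X M).hom ▷ Y) =
          bx R (R.H.map (β_ M X).hom ≫ z ≫ R.H.map (β_ X M).hom) (ModuleCat.ofHom (B k i)) := by
        intro z
        rw [Functor.Monoidal.map_whiskerRight, Functor.Monoidal.map_whiskerRight]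
        simp only [bx, Category.assoc, Functor.Monoidal.μ_δ_assoc, ← tensorHom_id,
          tensorHom_comp_tensorHom_assoc, Category.id_comp, Category.comp_id]
      rw [q1]
      congr 1
      by_cases h : o k = o i
      · rw [if_pos h]
        exact (hB C K R M X (e i k) (𝟙 _)).1 (e_even R hU h) (by simp)
      · rw [if_neg h]
        exact (hB C K R M X (e i k) (𝟙 _)).2 (e_odd R hU h)
    have s3 : R.H.map ((α_ M X Y).inv ≫ ((β_ M X).hom ▷ Y ≫ ((α_ X M Y).hom ≫ X ◁ b ≫
        (α_ X M Y).inv) ≫ (β_ X M).hom ▷ Y) ≫ (α_ M X Y).hom) =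
        ∑ i, ∑ k, bx R (e i k) (bx R (if o k = o i then 𝟙 _ else R.par X)
          (ModuleCat.ofHom (B k i))) := by
      rw [Functor.map_comp, Functor.map_comp, s2]
      simp only [Preadditive.sum_comp, Preadditive.comp_sum, conj_assoc]
    rw [← s3]
    simp only [Category.assoc]
  rw [omT, Functor.map_add, t1, t2, ← Finset.sum_add_distrib]
  refine Finset.sum_congr rfl fun i _ => ?_
  rw [← Finset.sum_add_distrib]
  refine Finset.sum_congr rfl fun k _ => ?_
  rw [← bx_add_right]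
  rfl

/-- The piece; `P_BRX.{v, u, w}` is used (in `P_TEN` the universes `u`, `v` of the hypothesis are
exchanged). -/
theorem p_ten (hB : P_BRX.{v, u, w}) : P_TEN.{v, u, w} :=
  fun _ C _ _ _ _ _ _ _ _ K _ R M X Y ι _ _ o e hU a b A B ha hb =>
    ten hB C K R M X Y ι o e hU a b A B ha hb

end Pool.Agent.W2helper59.SG
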