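import Pool.Agent.W2helper59.SG.Ten

/-!
# Project SG, piece SEL: the action on the object itself
-/

set_option autoImplicit false
set_option linter.unusedSectionVars false
set_option linter.unusedSimpArgs false
set_option backward.isDefEq.respectTransparency false
set_option backward.defeqAttrib.useBackward true

open CategoryTheory Limits MonoidalCategory
open Pool.Agent.Y112.SR Pool.Agent.Y112.SC Pool.Agent.W2helper37.SG
open Pool.Agent.Y112.KD hiding cc

namespace Pool.Agent.W2helper59.SG

universe v u w

open scoped TensorProduct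
open Functor.LaxMonoidal Functor.OplaxMonoidal

section

variable {C : Type u} [Category.{v} C] [Preadditive C] [Linear ℚ C] [MonoidalCategory C]
  [MonoidalPreadditive C] [MonoidalLinear ℚ C] [SymmetricCategory C]
  [RightRigidCategory C] {K : Type w} [Field K] (R : SuperRealisation C K)
  {ι : Type} [Fintype ι] [DecidableEq ι] {M : C} {o : ι → Bool}
  {e : ι → ι → (R.H.obj M ⟶ R.H.obj M)}

lemma mul_hom (hU : Units R M o e) (i k j l : ι) :
    (e j l).hom * (e i k).hom = if k = j then (e i l).hom else 0 := by
  have h := congrArg ModuleCat.Hom.hom (hU.mul i k j l)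
  rw [ModuleCat.hom_comp] at h
  refine Eq.trans ?_ (h.trans ?_)
  · rfl
  · split_ifs <;> rfl

lemma mul_apply (hU : Units R M o e) (i k j l : ι) (x : R.H.obj M) :
    (e j l).hom ((e i k).hom x) = if k = j then (e i l).hom x else 0 := by
  have h := LinearMap.congr_fun (mul_hom R hU i k j l) x
  refine Eq.trans ?_ (h.trans ?_)
  · rfl
  · split_ifs <;> rfl

/-- A basis for the matrix units. -/
lemma exists_basis (hU : Units R M o e) : ∃ v : Module.Basis ι K (R.H.obj M),
    ∀ i k j, (e i k).hom (v j) = if j = i then v k else 0 := by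
  have hc := R_charZero R
  have hfin := R.finite M
  have hcard : Fintype.card ι = Module.finrank K (R.H.obj M) := by
    have h1 : LinearMap.trace K (R.H.obj M) (𝟙 (R.H.obj M) : _ ⟶ _).hom =
        (Module.finrank K (R.H.obj M) : K) := LinearMap.trace_one K _
    rw [← hU.sum] at h1
    have h2 : (∑ i, e i i).hom = ∑ i, (e i i).hom := ModuleCat.hom_sum _ _
    rw [h2, map_sum] at h1
    simp only [hU.tr, if_true, Finset.sum_const, Finset.card_univ, nsmul_eq_mul, mul_one] at h1
    exact_mod_cast h1
  rcases isEmpty_or_nonempty ι with hι | ⟨⟨i0⟩⟩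
  · have h0 : Module.finrank K (R.H.obj M) = 0 := by rw [← hcard, Fintype.card_eq_zero]
    have hs : Subsingleton (R.H.obj M) := Module.finrank_zero_iff.1 h0
    exact ⟨Module.Basis.empty _, fun i => hι.elim i⟩
  · have hnon : Nonempty ι := ⟨i0⟩
    have hne : (e i0 i0).hom ≠ 0 := by
      intro h
      have := hU.tr i0 i0
      rw [h, map_zero, if_pos rfl] at this
      exact zero_ne_one this
    obtain ⟨x, hx⟩ : ∃ x, (e i0 i0).hom x ≠ 0 := by
      by_contra hcon
      push Not at hcon
      exact hne (LinearMap.ext hcon)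
    let b : ι → R.H.obj M := fun k => (e i0 k).hom x
    have hb : ∀ i k j, (e i k).hom (b j) = if j = i then b k else 0 := by
      intro i k j
      exact mul_apply R hU i0 j i k x
    have hli : LinearIndependent K b := by
      rw [Fintype.linearIndependent_iff]
      intro g hg j
      have h1 := congrArg (e j i0).hom hg
      rw [map_sum, map_zero] at h1
      simp only [map_smul, hb] at h1
      rw [Finset.sum_eq_single j] at h1
      · rw [if_pos rfl] at h1
        exact (smul_eq_zero.1 h1).resolve_right hx
      · intro k _ hk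
        rw [if_neg hk, smul_zero]
      · intro h
        exact absurd (Finset.mem_univ _) h
    refine ⟨basisOfLinearIndependentOfCardEqFinrank hli hcard, fun i k j => ?_⟩
    simp only [coe_basisOfLinearIndependentOfCardEqFinrank]
    exact hb i k j

lemma par_basis (hU : Units R M o e) (v : Module.Basis ι K (R.H.obj M))
    (hv : ∀ i k j, (e i k).hom (v j) = if j = i then v k else 0) (j : ι) :
    (R.par M).hom (v j) = sg K (o j) • v j := by
  have h : (R.par M).hom (v j) = (∑ i, sg K (o i) • e i i).hom (v j) := by rw [← hU.par]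
  rw [h]
  have h2 : (∑ i, sg K (o i) • e i i).hom = ∑ i, sg K (o i) • (e i i).hom := by
    rw [ModuleCat.hom_sum]
    rfl
  rw [h2, LinearMap.sum_apply, Finset.sum_eq_single j]
  · rw [LinearMap.smul_apply, hv, if_pos rfl]
  · intro k _ hk
    rw [LinearMap.smul_apply, hv, if_neg (Ne.symm hk), smul_zero]
  · intro h
    exact absurd (Finset.mem_univ _) h

end

lemma sg_cc {K : Type w} [Field K] (a b : Bool) :
    (1 : K) + sg K a + sg K b - sg K a * sg K b = 2 * cc K a b := by
  cases a <;> cases b <;> simp only [sg, cc] <;> norm_num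

theorem p_sel : P_SEL.{v, u, w} := by
  intro C _ _ _ _ _ _ _ _ K _ R M ι _ _ o e hU
  have hc := R_charZero R
  obtain ⟨v, hv⟩ := exists_basis R hU
  have hpar := par_basis R hU v hv
  have hcomm : ∀ a b : Bool, cc K a b = cc K b a := by
    intro a b
    cases a <;> cases b <;> rfl
  have hsq : ∀ a b : Bool, cc K a b * cc K a b = 1 := by
    intro a b
    cases a <;> cases b <;> simp [cc]
  have hsgsq : ∀ a : Bool, sg K a * sg K a = 1 := by
    intro a
    cases a <;> simp [sg]
  refine ⟨⟨?_, ?_, ?_⟩, ?_, ?_⟩
  · -- the realisation of the symmetry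
    have h1 : (2 : K) • ∑ i, ∑ k, cc K (o i) (o k) • (e i k ⊗ₘ e k i) =
        (𝟙 _ + R.par M ▷ R.H.obj M + R.H.obj M ◁ R.par M - (R.par M ⊗ₘ R.par M)) ≫
          (β_ (R.H.obj M) (R.H.obj M)).hom := by
      apply ModuleCat.hom_ext
      apply (v.tensorProduct v).ext
      rintro ⟨a, b⟩
      rw [Module.Basis.tensorProduct_apply]
      have hL : ∀ i k, (e i k ⊗ₘ e k i).hom (v a ⊗ₜ[K] v b) =
          (if a = i then v k else 0) ⊗ₜ[K] (if b = k then v i else 0) := by
        intro i k
        refine (ModuleCat.MonoidalCategory.tensorHom_tmul _ _ _ _).trans ?_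
        rw [← hv i k a, ← hv k i b]
      have hP1 : (R.par M ▷ R.H.obj M).hom (v a ⊗ₜ[K] v b) = sg K (o a) • (v a ⊗ₜ[K] v b) := by
        refine (ModuleCat.MonoidalCategory.whiskerRight_apply _ _ _ _).trans ?_
        rw [TensorProduct.smul_tmul', ← hpar a]
      have hP2 : (R.H.obj M ◁ R.par M).hom (v a ⊗ₜ[K] v b) = sg K (o b) • (v a ⊗ₜ[K] v b) := by
        refine (ModuleCat.MonoidalCategory.whiskerLeft_apply _ _ _ _).trans ?_
        rw [← TensorProduct.tmul_smul, ← hpar b]
      have hP3 : (R.par M ⊗ₘ R.par M).hom (v a ⊗ₜ[K] v b) =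
          (sg K (o a) * sg K (o b)) • (v a ⊗ₜ[K] v b) := by
        refine (ModuleCat.MonoidalCategory.tensorHom_tmul _ _ _ _).trans ?_
        rw [mul_smul, ← TensorProduct.tmul_smul, TensorProduct.smul_tmul', ← hpar a, ← hpar b]
      have hR : ((𝟙 _ + R.par M ▷ R.H.obj M + R.H.obj M ◁ R.par M - (R.par M ⊗ₘ R.par M)) ≫
          (β_ (R.H.obj M) (R.H.obj M)).hom).hom (v a ⊗ₜ[K] v b) =
          (2 * cc K (o a) (o b)) • (v b ⊗ₜ[K] v a) := by
        have r1 : (𝟙 _ + R.par M ▷ R.H.obj M + R.H.obj M ◁ R.par M -
            (R.par M ⊗ₘ R.par M)).hom (v a ⊗ₜ[K] v b) =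
            (2 * cc K (o a) (o b)) • (v a ⊗ₜ[K] v b) := by
          have r2 : (𝟙 _ + R.par M ▷ R.H.obj M + R.H.obj M ◁ R.par M -
            (R.par M ⊗ₘ R.par M)).hom (v a ⊗ₜ[K] v b) = (v a ⊗ₜ[K] v b) +
              (R.par M ▷ R.H.obj M).hom (v a ⊗ₜ[K] v b) +
              (R.H.obj M ◁ R.par M).hom (v a ⊗ₜ[K] v b) -
              (R.par M ⊗ₘ R.par M).hom (v a ⊗ₜ[K] v b) := rfl
          rw [r2, hP1, hP2, hP3, ← sg_cc, sub_smul, add_smul, add_smul, one_smul]
        have r3 := congrArg (β_ (R.H.obj M) (R.H.obj M)).hom.hom r1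
        refine Eq.trans ?_ (r3.trans ?_)
        · rfl
        · rw [map_smul]
          congr 1
      have hS : ((2 : K) • ∑ i, ∑ k, cc K (o i) (o k) • (e i k ⊗ₘ e k i)).hom (v a ⊗ₜ[K] v b) =
          (2 : K) • ∑ i, ∑ k, cc K (o i) (o k) • (e i k ⊗ₘ e k i).hom (v a ⊗ₜ[K] v b) := by
        have r1 : ((2 : K) • ∑ i, ∑ k, cc K (o i) (o k) • (e i k ⊗ₘ e k i)).hom =
            (2 : K) • (∑ i, ∑ k, cc K (o i) (o k) • (e i k ⊗ₘ e k i)).hom := rfl
        rw [r1, LinearMap.smul_apply, ModuleCat.hom_sum, LinearMap.sum_apply]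
        congr 1
        refine Finset.sum_congr rfl fun i _ => ?_
        rw [ModuleCat.hom_sum, LinearMap.sum_apply]
        rfl
      refine hS.trans (Eq.trans ?_ hR.symm)
      simp only [hL]
      rw [mul_smul]
      congr 1
      rw [Finset.sum_eq_single a, Finset.sum_eq_single b]
      · rw [if_pos rfl, if_pos rfl]
      · intro k _ hk
        rw [if_neg (Ne.symm hk), TensorProduct.tmul_zero, smul_zero]
      · intro h
        exact absurd (Finset.mem_univ _) h
      · intro i _ hi
        refine Finset.sum_eq_zero fun k _ => ?_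
        rw [if_neg (Ne.symm hi), TensorProduct.zero_tmul, smul_zero]
      · intro h
        exact absurd (Finset.mem_univ _) h
    have h2 : μ R.H M M ≫ R.H.map (β_ M M).hom =
        (∑ i, ∑ k, cc K (o i) (o k) • (e i k ⊗ₘ e k i)) ≫ μ R.H M M := by
      have h3 := R.symm M M
      rw [← Category.assoc, ← h1, Linear.smul_comp] at h3
      have h4 := congrArg (fun z => (2 : K)⁻¹ • z) h3
      simpa only [smul_smul, inv_mul_cancel₀ (two_ne_zero : (2 : K) ≠ 0), one_smul] using h4
    unfold Re
    have h3 : R.H.map (β_ M M).hom = δ R.H M M ≫ μ R.H M M ≫ R.H.map (β_ M M).hom := by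
      rw [Functor.Monoidal.δ_μ_assoc]
    rw [h3, h2]
    simp only [Preadditive.sum_comp, Preadditive.comp_sum, Linear.smul_comp, Linear.comp_smul]
    refine Finset.sum_congr rfl fun i _ => Finset.sum_congr rfl fun k _ => ?_
    have h4 : (ModuleCat.ofHom (cc K (o i) (o k) • (e k i).hom) : R.H.obj M ⟶ R.H.obj M) =
        cc K (o i) (o k) • e k i := rfl
    rw [h4, bx_smul_right]
    rfl
  · intro k i l j
    have h1 : (cc K (o i) (o l) * cc K (o k) (o l)) • (cc K (o i) (o k) • (e k i).hom *
        cc K (o j) (o l) • (e l j).hom) =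
        if k = j then cc K (o i) (o j) • (cc K (o i) (o l) • (e l i).hom) else 0 := by
      rw [smul_mul_smul_comm, mul_hom R hU]
      by_cases h : k = j
      · subst h
        rw [if_pos rfl, if_pos rfl, smul_smul, smul_smul]
        congr 1
        linear_combination (cc K (o i) (o l) * cc K (o i) (o k)) * hsq (o k) (o l)
      · rw [if_neg h, if_neg (Ne.symm h), smul_zero, smul_zero]
    have h2 : (cc K (o i) (o j) * cc K (o k) (o j)) • (cc K (o j) (o l) • (e l j).hom *
        cc K (o i) (o k) • (e k i).hom) =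
        if l = i then cc K (o k) (o i) • (cc K (o j) (o k) • (e k j).hom) else 0 := by
      rw [smul_mul_smul_comm, mul_hom R hU]
      by_cases h : l = i
      · subst h
        rw [if_pos rfl, if_pos rfl, smul_smul, smul_smul]
        congr 1
        rw [hcomm (o j) (o l), hcomm (o k) (o l), hcomm (o j) (o k)]
        linear_combination (cc K (o k) (o j) * cc K (o l) (o k)) * hsq (o l) (o j)
      · rw [if_neg h, if_neg (Ne.symm h), smul_zero, smul_zero]
    rw [h1, h2]
  · intro k i
    have h1 : (R.par M).hom * (e k i).hom = sg K (o i) • (e k i).hom := by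
      have := congrArg ModuleCat.Hom.hom (e_par R hU k i)
      rw [ModuleCat.hom_comp] at this
      exact this
    have h2 : (e k i).hom * (R.par M).hom = sg K (o k) • (e k i).hom := by
      have := congrArg ModuleCat.Hom.hom (par_e R hU k i)
      rw [ModuleCat.hom_comp] at this
      exact this
    rw [mul_smul_comm, smul_mul_assoc, h1, h2, smul_smul, smul_smul, smul_smul]
    congr 1
    linear_combination (-(cc K (o i) (o k) * sg K (o i))) * hsgsq (o k)
  · refine ⟨ι, inferInstance, v, fun x => if o x = true then 1 else 0, fun x => ?_, fun x => ?_⟩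
    · rw [LinearMap.sum_apply]
      beta_reduce
      by_cases hx : o x = true
      · rw [Finset.sum_eq_single x]
        · rw [LinearMap.smul_apply, hv, if_pos rfl, if_pos hx, hx]
          simp [cc]
        · intro k _ hk
          rw [LinearMap.smul_apply, hv, if_neg (Ne.symm hk), smul_zero]
        · intro h
          exact (h (by simp [hx])).elim
      · rw [Finset.sum_eq_zero, if_neg hx]
        · simp
        · intro k hk
          rw [LinearMap.smul_apply, hv, if_neg, smul_zero]
          rintro rfl
          exact hx (Finset.mem_filter.1 hk).2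
    · rw [hpar]
      congr 1
      beta_reduce
      by_cases hx : o x = true
      · simp [sg, hx]
      · simp [sg, hx]
  · refine ⟨1, ?_⟩
    apply v.ext
    intro x
    rw [LinearMap.sub_apply, LinearMap.sum_apply, LinearMap.sum_apply]
    cases hx : o x
    · rw [Finset.sum_eq_single x, Finset.sum_eq_zero]
      · rw [LinearMap.smul_apply, hv, if_pos rfl, hx]
        simp [cc]
      · intro k hk
        rw [LinearMap.smul_apply, hv, if_neg, smul_zero]
        rintro rfl
        rw [(Finset.mem_filter.1 hk).2] at hx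
        exact Bool.noConfusion hx
      · intro k _ hk
        rw [LinearMap.smul_apply, hv, if_neg (Ne.symm hk), smul_zero]
      · intro h
        exact (h (by simp [hx])).elim
    · rw [Finset.sum_eq_zero, Finset.sum_eq_single x]
      · rw [LinearMap.smul_apply, hv, if_pos rfl, hx]
        simp [cc]
      · intro k _ hk
        rw [LinearMap.smul_apply, hv, if_neg (Ne.symm hk), smul_zero]
      · intro h
        exact (h (by simp [hx])).elim
      · intro k hk
        rw [LinearMap.smul_apply, hv, if_neg, smul_zero]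
        rintro rfl
        rw [(Finset.mem_filter.1 hk).2] at hx
        exact Bool.noConfusion hx

end Pool.Agent.W2helper59.SG
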